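import Pool.Agent.PHW.Num3
import Pool.Agent.PHW.DefsB

/-!
BAR: cut levels of the half plane walks. A half plane walk of height at most m has at least k cuts with weight at most
(weight of the irreducible bridges of height at most m) ^ k times the weight of all of them.
-/

set_option autoImplicit false

namespace HexObs

namespace BAR13

open Finset ENNReal

/-- the walk crosses the level of the edge number i (upwards) only once -/
def IsCut (w : List Bool) (i : ℕ) : Prop := 1 ≤ i ∧ i ≤ w.length ∧ dx up w i = up ∧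
  (∀ j, j ≤ i → lev w j ≤ lev w i) ∧ ∀ j, i < j → j ≤ w.length → lev w i < lev w j

open Classical in
/-- the cuts of a word -/
noncomputable def cuts (w : List Bool) : Finset ℕ := (range (w.length + 1)).filter (IsCut w)

lemma mem_cuts {w : List Bool} {i : ℕ} : i ∈ cuts w ↔ IsCut w i := by
  classical
  unfold cuts
  rw [mem_filter, mem_range]
  exact ⟨fun h => h.2, fun h => ⟨by have := h.2.1; omega, h⟩⟩

lemma even_of_up {w : List Bool} {i : ℕ} (h : dx up w i = up) : Even i := by
  by_contra he
  have h1 := step_odd upd w he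
  rw [h] at h1
  rcases h1 with h1 | h1 | h1
  · exact absurd h1.1 (by decide)
  · exact absurd h1.2 (by decide)
  · exact absurd h1.2 (by decide)

lemma mem_SSt {m : ℕ} {w : List Bool} : w ∈ SSt m ↔ (∀ i, 1 ≤ i → i ≤ w.length → 0 < lev w i ∧ lev w i < 3 * m + 2) ∧
    ∀ i k, i < k → k ≤ w.length → vx oo up w i ≠ vx oo up w k := by
  constructor
  · intro h
    exact ⟨fun i h1 h2 => mem_St.1 (h.mem i h1 h2), h.inj⟩
  · intro h
    exact ⟨fun i h1 h2 => mem_St.2 (h.1 i h1 h2), h.2⟩

/-- the two parts of a half plane walk at a cut -/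
theorem cut_split {m : ℕ} {w : List Bool} (hw : w ∈ SSt m) {i : ℕ} (hi : IsCut w i) : ∃ r, 1 ≤ r ∧ r ≤ m ∧
    w.take i ∈ Brd r ∧ w.drop i ∈ SSt m ∧ ∀ j, IsCut (w.drop i) j ↔ 1 ≤ j ∧ IsCut w (i + j) := by
  obtain ⟨i1, i2, i3, i4, i5⟩ := hi
  obtain ⟨w1, w2⟩ := mem_SSt.1 hw
  have hl : (w.take i).length = i := by
    rw [List.length_take]
    omega
  have hap : w.take i ++ w.drop i = w := List.take_append_drop _ _
  have hd : dx up (w.take i) (w.take i).length = up := by
    have := dx_append (d0 := up) (t := w.take i) (s := w.drop i) (i := i) (by omega)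
    rw [hap, i3] at this
    rw [hl, ← this]
  have hv : ∀ j, j ≤ i → vx oo up (w.take i) j = vx oo up w j := by
    intro j hj
    have := vx_append (v0 := oo) (d0 := up) (t := w.take i) (s := w.drop i) (i := j) (by omega)
    rw [hap] at this
    exact this.symm
  have hlv : ∀ j, j ≤ i → lev (w.take i) j = lev w j := by
    intro j hj
    unfold lev
    rw [hv j hj]
  have hv2 : ∀ j, vx oo up w (i + j) = vx oo up w i + vx oo up (w.drop i) j := by
    intro j
    have := vx_cat hd (t := w.drop i) j
    rw [hap, hl, hv i le_rfl] at this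
    exact this
  have hlv2 : ∀ j, lev w (i + j) = lev w i + lev (w.drop i) j := by
    intro j
    unfold lev
    rw [hv2, ip_add_left]
  have hdx2 : ∀ j, dx up w (i + j) = dx up (w.drop i) j := by
    intro j
    have := dx_cat hd (t := w.drop i) j
    rw [hap, hl] at this
    exact this
  have hmod := lev_mod w i
  rw [if_pos (even_of_up i3), sub_zero] at hmod
  obtain ⟨q, hq⟩ := hmod
  have hpos := w1 i i1 i2
  refine ⟨q.toNat, by omega, by omega, ?_, ?_, ?_⟩
  · rw [mem_Brd, hl]
    refine ⟨fun j j1 j2 => ?_, fun j k hjk hk => ?_, ?_, ?_⟩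
    · rw [hlv j j2]
      have h1 := (w1 j j1 (by omega)).1
      have h2 := i4 j j2
      refine ⟨h1, ?_⟩
      omega
    · rw [hv j (by omega), hv k hk]
      exact w2 j k hjk (by omega)
    · have h := hd
      rwa [hl] at h
    · rw [hlv i le_rfl]
      omega
  · rw [mem_SSt, List.length_drop]
    refine ⟨fun j j1 j2 => ?_, fun j k hjk hk h => ?_⟩
    · have h1 := hlv2 j
      have h2 := i5 (i + j) (by omega) (by omega)
      have h3 := (w1 (i + j) (by omega) (by omega)).2
      omega
    · apply w2 (i + j) (i + k) (by omega) (by omega)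
      rw [hv2, hv2, h]
  · intro j
    constructor
    · rintro ⟨j1, j2, j3, j4, j5⟩
      rw [List.length_drop] at j2 j5
      refine ⟨j1, by omega, by omega, by rw [hdx2]; exact j3, fun k hk => ?_, fun k hk hk2 => ?_⟩
      · have h0 := j4 0 (by omega)
        rw [lev_zero] at h0
        rcases Nat.lt_or_ge k i with h | h
        · have h1 := i4 k h.le
          have h2 := hlv2 j
          omega
        · obtain ⟨l, rfl⟩ := Nat.exists_eq_add_of_le h
          rw [hlv2, hlv2]
          have := j4 l (by omega)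
          omega
      · obtain ⟨l, rfl⟩ := Nat.exists_eq_add_of_le (show i ≤ k by omega)
        rw [hlv2, hlv2]
        have := j5 l (by omega) (by omega)
        omega
    · rintro ⟨j1, k1, k2, k3, k4, k5⟩
      refine ⟨j1, by rw [List.length_drop]; omega, by rw [← hdx2]; exact k3, fun k hk => ?_, fun k hk hk2 => ?_⟩
      · have := k4 (i + k) (by omega)
        rw [hlv2, hlv2] at this
        omega
      · rw [List.length_drop] at hk2
        have := k5 (i + k) (by omega) (by omega)
        rw [hlv2, hlv2] at this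
        omega

/-- the first cut splits off an irreducible bridge -/
theorem first_cut {m : ℕ} {w : List Bool} (hw : w ∈ SSt m) (hc : (cuts w).Nonempty) : ∃ (i r : ℕ), 1 ≤ r ∧ r ≤ m ∧
    w.take i ∈ Irr r ∧ w.drop i ∈ SSt m ∧ (cuts w).card ≤ (cuts (w.drop i)).card + 1 := by
  obtain ⟨i, hi⟩ : ∃ i, i = (cuts w).min' hc := ⟨_, rfl⟩
  have hmem : IsCut w i := mem_cuts.1 (hi ▸ Finset.min'_mem _ hc)
  have hmin : ∀ j, IsCut w j → i ≤ j := fun j hj => hi ▸ Finset.min'_le _ j (mem_cuts.2 hj)
  obtain ⟨r, r1, r2, r3, r4, r5⟩ := cut_split hw hmem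
  have hl : (w.take i).length = i := by
    rw [List.length_take]
    have := hmem.2.1
    omega
  refine ⟨i, r, r1, r2, ⟨r3, ?_, ?_⟩, r4, ?_⟩
  · intro h
    rw [h] at hl
    have := hmem.1
    simp at hl
    omega
  · intro a b s u hs hu hsu
    by_contra hcon
    push Not at hcon
    obtain ⟨hs0, hu0⟩ := hcon
    have hs1 : 1 ≤ s.length := List.length_pos_iff.2 hs0
    have hu1 : 1 ≤ u.length := List.length_pos_iff.2 hu0
    have hlen : s.length + u.length = i := by
      rw [hsu, List.length_append] at hl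
      exact hl
    obtain ⟨s1, s2, s3, s4⟩ := mem_Brd.1 hs
    obtain ⟨u1, u2, u3, u4⟩ := mem_Brd.1 hu
    have hw' : w = s ++ (u ++ w.drop i) := by
      rw [← List.append_assoc, ← hsu, List.take_append_drop]
    have hlw : ∀ j, j ≤ s.length → lev w j = lev s j := by
      intro j hj
      rw [hw', lev_append (by omega)]
    have hlu : ∀ j, j ≤ u.length → lev w (s.length + j) = 3 * a + lev u j := by
      intro j hj
      have : lev w (s.length + j) = lev (s ++ (u ++ w.drop i)) (s.length + j) := by rw [← hw']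
      rw [this, lev_cat s3, s4, lev_append (by omega)]
    have hcut : IsCut w s.length := by
      have hlen2 := hmem.2.1
      refine ⟨hs1, by omega, ?_, fun j hj => ?_, fun j hj hj2 => ?_⟩
      · rw [hw', dx_append le_rfl]
        exact s3
      · rw [hlw j hj, hlw _ le_rfl, s4]
        rcases Nat.eq_zero_or_pos j with h0 | h0
        · rw [h0, lev_zero]
          positivity
        · exact (s1 j h0 hj).2
      · rw [hlw _ le_rfl, s4]
        rcases Nat.lt_or_ge i j with h | h
        · have h1 := hmem.2.2.2.2 j h hj2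
          have h2 := hlu u.length le_rfl
          rw [hlen, u4] at h2
          have : (0 : ℤ) ≤ b := by positivity
          omega
        · obtain ⟨l, rfl⟩ := Nat.exists_eq_add_of_le (show s.length ≤ j by omega)
          rw [hlu l (by omega)]
          have := (u1 l (by omega) (by omega)).1
          omega
    have := hmin _ hcut
    omega
  · have hsub : cuts w ⊆ insert i ((cuts (w.drop i)).image fun j => i + j) := by
      intro j hj
      have hj' := mem_cuts.1 hj
      have := hmin j hj'
      rw [mem_insert, mem_image]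
      rcases Nat.lt_or_ge i j with h | h
      · right
        refine ⟨j - i, mem_cuts.2 ((r5 _).2 ⟨by omega, ?_⟩), by omega⟩
        rw [show i + (j - i) = j by omega]
        exact hj'
      · left
        omega
    exact (card_le_card hsub).trans ((card_insert_le _ _).trans (Nat.add_le_add_right card_image_le 1))

/-- half plane walks with at least k cuts -/
def AC (m k : ℕ) : Set (List Bool) := {w | w ∈ SSt m ∧ k ≤ (cuts w).card}

theorem gf_AC_succ (m k : ℕ) : gf (AC m (k + 1)) ≤ (∑ r ∈ Icc 1 m, kap' r) * gf (AC m k) := by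
  classical
  obtain ⟨I, hI⟩ : ∃ I : Set (List Bool), I = ⋃ r ∈ Icc 1 m, Irr r := ⟨_, rfl⟩
  have h1 : gf I ≤ ∑ r ∈ Icc 1 m, kap' r := by
    rw [hI]
    exact ENNReal.tsum_biUnion_le wE _ _
  have hsp : ∀ w : AC m (k + 1), ∃ i, w.1.take i ∈ I ∧ w.1.drop i ∈ AC m k := by
    rintro ⟨w, hw, hk⟩
    obtain ⟨i, r, r1, r2, r3, r4, r5⟩ := first_cut hw (card_pos.1 (by omega))
    refine ⟨i, ?_, r4, ?_⟩
    swap
    · show k ≤ (cuts (w.drop i)).card
      omega
    rw [hI]
    simp only [Set.mem_iUnion]
    exact ⟨r, mem_Icc.2 ⟨r1, r2⟩, r3⟩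
  choose i hi1 hi2 using hsp
  let φ : AC m (k + 1) → I × AC m k := fun w => (⟨_, hi1 w⟩, ⟨_, hi2 w⟩)
  have hφ : Function.Injective φ := by
    intro w w' h
    have e1 : w.1.take (i w) = w'.1.take (i w') := congrArg (fun p => p.1.1) h
    have e2 : w.1.drop (i w) = w'.1.drop (i w') := congrArg (fun p => p.2.1) h
    apply Subtype.ext
    rw [← List.take_append_drop (i w) w.1, ← List.take_append_drop (i w') w'.1, e1, e2]
  calc gf (AC m (k + 1)) = ∑' w : AC m (k + 1), (fun p : I × AC m k => wE p.1.1 * wE p.2.1) (φ w) := by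
        refine tsum_congr fun w => ?_
        show wE w.1 = wE (w.1.take (i w)) * wE (w.1.drop (i w))
        rw [← wE_append, List.take_append_drop]
    _ ≤ ∑' p : I × AC m k, wE p.1.1 * wE p.2.1 := ENNReal.tsum_comp_le_tsum_of_injective hφ _
    _ = ∑' a : I, ∑' c : AC m k, wE a.1 * wE c.1 := ENNReal.tsum_prod (f := fun (a : I) (c : AC m k) => wE a.1 * wE c.1)
    _ = gf I * gf (AC m k) := by
        simp only [ENNReal.tsum_mul_left]
        rw [ENNReal.tsum_mul_right]
        rfl
    _ ≤ _ := mul_le_mul_left h1 _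

theorem gf_AC_le (m k : ℕ) : gf (AC m k) ≤ (∑ r ∈ Icc 1 m, kap' r) ^ k * gf (SSt m) := by
  induction k with
  | zero =>
    rw [pow_zero, one_mul]
    exact gf_mono fun w hw => hw.1
  | succ k ih =>
    calc gf (AC m (k + 1)) ≤ (∑ r ∈ Icc 1 m, kap' r) * gf (AC m k) := gf_AC_succ m k
      _ ≤ (∑ r ∈ Icc 1 m, kap' r) * ((∑ r ∈ Icc 1 m, kap' r) ^ k * gf (SSt m)) := mul_le_mul_right ih _
      _ = _ := by ring

end BAR13

end HexObs
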