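import Pool.Agent.BAR13.Cuts
import Pool.Agent.PHW.LowA

/-!
BAR: two half plane walks (one upwards, one downwards) joined through a vertical edge.
-/

set_option autoImplicit false

namespace HexObs

namespace BAR13

open Finset ENNReal

/-- self-avoiding words with the first direction D, extent in the direction up at most m rows -/
def XW (D : Pt) (m : ℕ) : Set (List Bool) := {u | (∀ i k, i < k → k ≤ u.length → vx oo D u i ≠ vx oo D u k) ∧
  ∀ i k, i ≤ u.length → k ≤ u.length → ip (vx oo D u i - vx oo D u k) up ≤ 3 * m + 2}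

/-- total weight of the walks of extent at most m rows -/
noncomputable def chi (m : ℕ) : ℝ≥0∞ := ∑ D ∈ dirs, gf (XW D m)

/-- the word u crosses the level of its edge number j (upwards) only once -/
def IsMk (D : Pt) (u : List Bool) (j : ℕ) : Prop := j ≤ u.length ∧ dx D u j = up ∧
  (∀ i, i ≤ j → ip (vx oo D u i) up ≤ ip (vx oo D u j) up) ∧
  ∀ i, j < i → i ≤ u.length → ip (vx oo D u j) up < ip (vx oo D u i) up

open Classical in
/-- the cuts of a walk -/
noncomputable def mks (D : Pt) (u : List Bool) : Finset ℕ := (range (u.length + 1)).filter (IsMk D u)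

lemma mem_mks {D : Pt} {u : List Bool} {j : ℕ} : j ∈ mks D u ↔ IsMk D u j := by
  classical
  unfold mks
  rw [mem_filter, mem_range]
  exact ⟨fun h => h.2, fun h => ⟨by have := h.1; omega, h⟩⟩

/-- the joined word -/
def jn (w1 w2 : List Bool) : List Bool := rev w1.dropLast ++ w2

/-- the walk w1 without its last letter -/
lemma dl_spec {m : ℕ} (hm : 1 ≤ m) {w : List Bool} (hw : w ∈ SSt m) :
    (∀ i, 1 ≤ i → i ≤ w.dropLast.length + 1 → 0 < lev w.dropLast i ∧ lev w.dropLast i < 3 * m + 2) ∧
    (∀ i k, i < k → k ≤ w.dropLast.length + 1 → vx oo up w.dropLast i ≠ vx oo up w.dropLast k) ∧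
    (∀ i, i ≤ w.dropLast.length → dx up w.dropLast i = dx up w i) ∧
    (w ≠ [] → ∀ i, i ≤ w.dropLast.length + 1 → vx oo up w.dropLast i = vx oo up w i) := by
  obtain ⟨w1, w2⟩ := mem_SSt.1 hw
  rcases List.eq_nil_or_concat w with h | ⟨s, b, h⟩
  · subst h
    refine ⟨fun i h1 h2 => ?_, fun i k h1 h2 => ?_, fun i _ => rfl, fun h => absurd rfl h⟩
    · simp only [List.dropLast_nil, List.length_nil, zero_add] at h2 ⊢
      have : i = 1 := by omega
      subst this
      have e : lev [] 1 = 2 := by decide
      have h4 : (1 : ℤ) ≤ m := by exact_mod_cast hm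
      rw [e]
      constructor <;> omega
    · simp only [List.dropLast_nil, List.length_nil, zero_add] at h2 ⊢
      have h3 : k = 1 := by omega
      have h4 : i = 0 := by omega
      subst h3
      subst h4
      decide
  · subst h
    rw [List.concat_eq_append, List.dropLast_concat]
    rw [List.concat_eq_append] at w1 w2
    have hv : ∀ i, i ≤ s.length + 1 → vx oo up s i = vx oo up (s ++ [b]) i := fun i hi => (vx_append hi).symm
    refine ⟨fun i h1 h2 => ?_, fun i k h1 h2 => ?_, fun i hi => (dx_append hi).symm, fun _ => hv⟩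
    · have := w1 i h1 (by simpa using h2)
      unfold lev at this ⊢
      rw [hv i h2]
      exact this
    · rw [hv i (by omega), hv k h2]
      exact w2 i k h1 (by simpa using h2)

/-- the frame of the joined walk: start Q, direction D -/
theorem jn_frame {m : ℕ} (hm : 1 ≤ m) {w1 w2 : List Bool} (h1 : w1 ∈ SSt m) (_h2 : w2 ∈ SSt m) : ∃ Q D : Pt, D ∈ dirs ∧
    (∀ i, i ≤ w1.dropLast.length + 1 → Q + vx oo D (jn w1 w2) i =
      up - vx oo up w1.dropLast (w1.dropLast.length + 1 - i)) ∧
    (∀ i, Q + vx oo D (jn w1 w2) (w1.dropLast.length + i) = vx oo up w2 i) ∧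
    (∀ i, i ≤ w1.dropLast.length → dx D (jn w1 w2) i = dx up w1 (w1.dropLast.length - i)) ∧
    (∀ i, dx D (jn w1 w2) (w1.dropLast.length + i) = dx up w2 i) := by
  obtain ⟨-, -, e3, -⟩ := dl_spec hm h1
  obtain ⟨t, ht⟩ : ∃ t, t = w1.dropLast := ⟨_, rfl⟩
  rw [← ht] at e3 ⊢
  have hneg : ∀ i, vx up (-up) t i = up - vx oo up t i := by
    intro i
    induction i with
    | zero => exact (sub_zero up).symm
    | succ i ih =>
      rw [vx_succ, vx_succ, ih]
      have : ∀ i, dx (-up) t i = -dx up t i := by
        intro i
        induction i with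
        | zero => rfl
        | succ i ih2 =>
          rw [dx_succ, dx_succ, ih2]
          cases tf t i <;> ext <;> simp [turn, rotL, rotR] <;> ring
      rw [this]
      abel
  have hdneg : ∀ i, dx (-up) t i = -dx up t i := by
    intro i
    induction i with
    | zero => rfl
    | succ i ih2 =>
      rw [dx_succ, dx_succ, ih2]
      cases tf t i <;> ext <;> simp [turn, rotL, rotR] <;> ring
  obtain ⟨Q, hQ⟩ : ∃ Q, Q = tip up (-up) t := ⟨_, rfl⟩
  obtain ⟨D, hD⟩ : ∃ D, D = -(dx (-up) t t.length) := ⟨_, rfl⟩
  have hrv := vx_rev up (-up) t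
  have hrd := dx_rev (-up) t
  rw [← hQ, ← hD] at hrv
  rw [← hD] at hrd
  have hDm : D ∈ dirs := by
    rw [hD, hdneg, neg_neg]
    exact ds_mem upd _
  have hl : (rev t).length = t.length := rev_length t
  have hQv : ∀ (w : List Bool) i, Q + vx oo D w i = vx Q D w i := by
    intro w i
    rw [← lowA_trans]
    congr 1
    exact add_zero Q
  have hj : jn w1 w2 = rev t ++ w2 := by
    unfold jn
    rw [← ht]
  have hpre : ∀ i, i ≤ t.length + 1 → vx Q D (jn w1 w2) i = up - vx oo up t (t.length + 1 - i) := by
    intro i hi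
    rw [hj, vx_append (by omega), hrv i hi, hneg]
  have hpred : ∀ i, i ≤ t.length → dx D (jn w1 w2) i = dx up w1 (t.length - i) := by
    intro i hi
    rw [hj, dx_append (by omega), hrd i hi, hdneg, neg_neg, e3 _ (by omega)]
  have hmidv : vx Q D (jn w1 w2) t.length = oo := by
    rw [hpre _ (by omega), show t.length + 1 - t.length = 1 by omega]
    have : vx oo up t 1 = up := by
      show oo + up = up
      exact zero_add up
    rw [this]
    exact sub_self up
  have hmidd : dx D (jn w1 w2) t.length = up := by
    rw [hpred _ le_rfl, Nat.sub_self]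
    rfl
  have hcat : ∀ i, vx Q D (jn w1 w2) (t.length + i) = vx oo up w2 i ∧ dx D (jn w1 w2) (t.length + i) = dx up w2 i := by
    intro i
    have hdrop : (jn w1 w2).drop t.length = w2 := by
      rw [hj, ← hl, List.drop_left]
    have e1 := lowA_drop Q D (jn w1 w2) t.length i
    rw [hdrop, hmidv, hmidd] at e1
    refine ⟨e1, ?_⟩
    have e2 : dx D (jn w1 w2) (t.length + i) = dx (dx D (jn w1 w2) t.length) w2 i := by
      unfold dx
      rw [ds_shift]
      apply ds_congr
      intro k _
      rw [hj, ← hl]
      exact tf_append_right k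
    rw [e2, hmidd]
  refine ⟨Q, D, hDm, fun i hi => ?_, fun i => ?_, hpred, fun i => (hcat i).2⟩
  · rw [hQv]
    exact hpre i hi
  · rw [hQv]
    exact (hcat i).1

lemma lev_ge_two {t : List Bool} {i : ℕ} (h : 0 < lev t i) : 2 ≤ lev t i := by
  have := lev_mod t i
  split_ifs at this <;> omega

/-- the joined walk -/
theorem jn_spec {m : ℕ} (hm : 1 ≤ m) {w1 w2 : List Bool} (h1 : w1 ∈ SSt m) (h2 : w2 ∈ SSt m) : ∃ D ∈ dirs,
    jn w1 w2 ∈ XW D (2 * m) ∧ IsMk D (jn w1 w2) w1.dropLast.length ∧
    (mks D (jn w1 w2)).card ≤ (cuts w1).card + (cuts w2).card + 1 := by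
  obtain ⟨Q, D, hD, f1, f2, f3, f4⟩ := jn_frame hm h1 h2
  obtain ⟨t1, t2, t3, t4⟩ := dl_spec hm h1
  obtain ⟨a1, a2⟩ := mem_SSt.1 h1
  obtain ⟨b1, b2⟩ := mem_SSt.1 h2
  obtain ⟨u, hu⟩ : ∃ u, u = jn w1 w2 := ⟨_, rfl⟩
  obtain ⟨t, ht⟩ : ∃ t, t = w1.dropLast := ⟨_, rfl⟩
  obtain ⟨n, hn⟩ : ∃ n, n = w1.dropLast.length := ⟨_, rfl⟩
  have hul : u.length = n + w2.length := by
    rw [hu, hn]
    unfold jn
    rw [List.length_append, rev_length]
  rw [← hu, ← hn, ← ht] at f1
  rw [← hu, ← hn] at f2 f3 f4 ⊢
  rw [← hn, ← ht] at t1 t2 t3 t4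
  obtain ⟨q, hq⟩ : ∃ q, q = ip Q up := ⟨_, rfl⟩
  have hL : ∀ i, ip (Q + vx oo D u i) up = q + ip (vx oo D u i) up := fun i => by rw [ip_add_left, hq]
  have hL1 : ∀ i, i ≤ n + 1 → q + ip (vx oo D u i) up = 2 - lev t (n + 1 - i) := by
    intro i hi
    rw [← hL, f1 i hi, ip_sub_left, lowA_ipup]
    rfl
  have hL2 : ∀ i, q + ip (vx oo D u (n + i)) up = lev w2 i := by
    intro i
    rw [← hL, f2]
    rfl
  have hlow : ∀ i, i ≤ n → -(3 * (m : ℤ)) < q + ip (vx oo D u i) up ∧ q + ip (vx oo D u i) up ≤ 0 := by
    intro i hi
    have h3 := t1 (n + 1 - i) (by omega) (by omega)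
    have h4 := lev_ge_two h3.1
    rw [hL1 i (by omega)]
    constructor <;> omega
  have hhigh : ∀ i, n < i → i ≤ u.length → 0 < q + ip (vx oo D u i) up ∧ q + ip (vx oo D u i) up < 3 * m + 2 := by
    intro i hi hi2
    obtain ⟨j, rfl⟩ := Nat.exists_eq_add_of_le hi.le
    rw [hL2]
    exact b1 j (by omega) (by omega)
  have hmid : q + ip (vx oo D u n) up = 0 := by
    have := hL2 0
    rwa [lev_zero, add_zero] at this
  have hmk : IsMk D u n := by
    refine ⟨by omega, ?_, fun i hi => ?_, fun i hi hi2 => ?_⟩
    · have := f4 0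
      rwa [add_zero] at this
    · have := (hlow i hi).2
      omega
    · have := (hhigh i hi hi2).1
      omega
  refine ⟨D, hD, ⟨fun i k hik hk => ?_, fun i k hi hk => ?_⟩, hmk, ?_⟩
  · rcases Nat.lt_or_ge n k with h | h
    · rcases Nat.lt_or_ge i n with h' | h'
      · intro he
        have h5 := (hlow i h'.le).2
        have h6 := (hhigh k h hk).1
        rw [he] at h5
        omega
      · obtain ⟨j, rfl⟩ := Nat.exists_eq_add_of_le h'
        obtain ⟨l, rfl⟩ := Nat.exists_eq_add_of_le h.le
        intro he
        apply b2 j l (by omega) (by omega)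
        rw [← f2, ← f2, he]
    · intro he
      have e1 := f1 i (by omega)
      have e2 := f1 k (by omega)
      rw [he, e2] at e1
      exact t2 (n + 1 - k) (n + 1 - i) (by omega) (by omega) (sub_right_injective e1)
  · rw [ip_sub_left]
    push_cast
    have h5 : -(3 * (m : ℤ)) < q + ip (vx oo D u k) up := by
      rcases Nat.lt_or_ge n k with h | h
      · have := (hhigh k h hk).1
        omega
      · exact (hlow k h).1
    have h6 : q + ip (vx oo D u i) up < 3 * m + 2 := by
      rcases Nat.lt_or_ge n i with h | h
      · exact (hhigh i h hi).2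
      · have := (hlow i h).2
        omega
    omega
  · have hsub : mks D u ⊆ insert n ((cuts w2).image (fun i => n + i) ∪ (cuts w1).image fun i => n - i) := by
      intro j hj
      obtain ⟨j1, j2, j3, j4⟩ := mem_mks.1 hj
      rw [mem_insert, mem_union, mem_image, mem_image]
      rcases lt_trichotomy j n with h | h | h
      · right
        right
        refine ⟨n - j, mem_cuts.2 ?_, by omega⟩
        have hne : w1 ≠ [] := by
          rintro rfl
          simp at hn
          omega
        have hl1 : w1.length = n + 1 := by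
          rw [hn, List.length_dropLast]
          have := List.length_pos_iff.2 hne
          omega
        have hlw : ∀ i, i ≤ n + 1 → lev w1 i = lev t i := by
          intro i hi
          unfold lev
          rw [t4 hne i hi]
        have hdx : dx up w1 (n - j) = up := by
          rw [← f3 j h.le]
          exact j2
        have hst : lev t (n + 1 - j) = lev t (n - j) + 2 := by
          have h3 := lev_succ t (n - j)
          rw [t3 (n - j) (by omega), hdx, lowA_ipup, show n - j + 1 = n + 1 - j by omega] at h3
          exact h3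
        have hj' := hL1 j (by omega)
        rw [hst] at hj'
        refine ⟨by omega, by omega, hdx, fun i hi => ?_, fun i hi hi2 => ?_⟩
        · rw [hlw i (by omega), hlw (n - j) (by omega)]
          rcases Nat.eq_zero_or_pos i with h0 | h0
          · subst h0
            rw [lev_zero]
            exact (t1 (n - j) (by omega) (by omega)).1.le
          · have h5 := j4 (n + 1 - i) (by omega) (by omega)
            have h6 := hL1 (n + 1 - i) (by omega)
            rw [show n + 1 - (n + 1 - i) = i by omega] at h6
            have h7 := lev_mod t i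
            have h8 := lev_mod t (n - j)
            have h9 : Even (n - j) := even_of_up hdx
            rw [if_pos h9] at h8
            split_ifs at h7 <;> omega
        · rw [hlw i (by omega), hlw (n - j) (by omega)]
          have h5 := j3 (n + 1 - i) (by omega)
          have h6 := hL1 (n + 1 - i) (by omega)
          rw [show n + 1 - (n + 1 - i) = i by omega] at h6
          omega
      · left
        exact h
      · right
        left
        refine ⟨j - n, mem_cuts.2 ?_, by omega⟩
        have e : ∀ i, n + i = j → i = j - n := fun i hi => by omega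
        have hj' := hL2 (j - n)
        rw [show n + (j - n) = j by omega] at hj'
        refine ⟨by omega, by omega, ?_, fun i hi => ?_, fun i hi hi2 => ?_⟩
        · have := f4 (j - n)
          rw [show n + (j - n) = j by omega, j2] at this
          exact this.symm
        · have h5 := j3 (n + i) (by omega)
          have h6 := hL2 i
          omega
        · have h5 := j4 (n + i) (by omega) (by omega)
          have h6 := hL2 i
          omega
    refine (card_le_card hsub).trans ((card_insert_le _ _).trans ?_)
    have h3 := card_union_le ((cuts w2).image fun i => n + i) ((cuts w1).image fun i => n - i)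
    have h4 : ((cuts w2).image fun i => n + i).card ≤ (cuts w2).card := card_image_le
    have h5 : ((cuts w1).image fun i => n - i).card ≤ (cuts w1).card := card_image_le
    omega

end BAR13

end HexObs
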