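import Pool.Agent.BAR13.Join
import Pool.Agent.BAR.Defs
import Pool.Agent.PLW.Strip

/-!
BAR: the walks with any first direction by the walks with the first direction up.
-/

set_option autoImplicit false

namespace HexObs

namespace BAR13

open Finset ENNReal BAR

lemma vx_neg (u : List Bool) (i : ℕ) : vx oo (-up) u i = -vx oo up u i ∧ dx (-up) u i = -dx up u i := by
  induction i with
  | zero => exact ⟨neg_zero.symm, rfl⟩
  | succ i ih =>
    constructor
    · rw [vx_succ, vx_succ, ih.1, ih.2, neg_add]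
    · rw [dx_succ, dx_succ, ih.2]
      cases tf u i <;> ext <;> simp [turn, rotL, rotR] <;> ring

lemma ext_of_diff {M : ℕ} {u : List Bool} (h : ∀ i k, i ≤ u.length → k ≤ u.length → lev u i - lev u k ≤ 3 * M + 2) :
    Ext (M + 2) u := by
  obtain ⟨j, hj, hmin⟩ := Finset.exists_min_image (Finset.range (u.length + 1)) (fun i => lev u i) ⟨0, by simp⟩
  rw [Finset.mem_range] at hj
  refine ⟨(lev u j - 1) / 3, fun i _ hi => ?_⟩
  have h1 := hmin i (Finset.mem_range.2 (by omega))
  have h2 := h i j hi (by omega)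
  push_cast
  constructor <;> omega

lemma XW_up (M : ℕ) : gf (XW up M) ≤ Chi (M + 2) := by
  refine gf_mono fun u hu => ⟨⟨fun _ _ _ => Set.mem_univ _, hu.1⟩, ext_of_diff fun i k hi hk => ?_⟩
  have := hu.2 i k hi hk
  rw [ip_sub_left] at this
  exact this

lemma XW_down (M : ℕ) : gf (XW (-up) M) ≤ Chi (M + 2) := by
  refine gf_mono fun u hu => ⟨⟨fun _ _ _ => Set.mem_univ _, fun i k h1 h2 h => ?_⟩, ext_of_diff fun i k hi hk => ?_⟩
  · apply hu.1 i k h1 h2
    rw [(vx_neg u i).1, (vx_neg u k).1, h]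
  · have := hu.2 k i hk hi
    rw [ip_sub_left, (vx_neg u i).1, (vx_neg u k).1, ip_neg_left, ip_neg_left] at this
    unfold lev
    omega

/-- words of length at most n -/
def Xn (D : Pt) (M n : ℕ) : Set (List Bool) := {u | u ∈ XW D M ∧ u.length ≤ n}

lemma peel {D : Pt} {M n : ℕ} {b : Bool} {v : List Bool} (h : b :: v ∈ Xn D M (n + 1)) : v ∈ Xn (turn b D) M n := by
  obtain ⟨⟨h1, h2⟩, h3⟩ := h
  have key : ∀ i, vx oo D (b :: v) (i + 1) = D + vx oo (turn b D) v i := by
    intro i
    rw [(lowA_cons oo D b v i).1, ← lowA_trans]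
    congr 1
    show oo + D = D + oo
    exact add_comm _ _
  rw [List.length_cons] at h1 h2 h3
  refine ⟨⟨fun i k hik hk h => ?_, fun i k hi hk => ?_⟩, by omega⟩
  · apply h1 (i + 1) (k + 1) (by omega) (by omega)
    rw [key, key, h]
  · have := h2 (i + 1) (k + 1) (by omega) (by omega)
    rw [key, key, add_sub_add_left_eq_sub] at this
    exact this

lemma wE_cons_le (b : Bool) (v : List Bool) : wE (b :: v) ≤ ENNReal.ofReal (2 / 3) * wE v := by
  unfold wE
  rw [← ENNReal.ofReal_mul (by norm_num), List.length_cons, pow_succ, mul_comm (xc ^ v.length)]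
  refine ENNReal.ofReal_le_ofReal (mul_le_mul_of_nonneg_right ?_ (pow_nonneg xc_pos.le _))
  have h1 : xc ^ 2 ≤ (2 / 3) ^ 2 := by
    rw [xc_sq, div_le_iff₀ (by positivity)]
    have h2 : (1 : ℝ) ≤ Real.sqrt 2 := by
      rw [Real.one_le_sqrt]
      norm_num
    nlinarith
  exact le_of_sq_le_sq h1 (by norm_num)

lemma gf_Xn_succ (D : Pt) (M n : ℕ) : gf (Xn D M (n + 1)) ≤
    1 + ENNReal.ofReal (2 / 3) * (gf (Xn (turn true D) M n) + gf (Xn (turn false D) M n)) := by
  have hsub : Xn D M (n + 1) ⊆ ({[]} ∪ (fun v => true :: v) '' Xn (turn true D) M n) ∪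
      (fun v => false :: v) '' Xn (turn false D) M n := by
    intro u hu
    cases u with
    | nil => exact Or.inl (Or.inl rfl)
    | cons b v =>
      cases b
      · exact Or.inr ⟨v, peel hu, rfl⟩
      · exact Or.inl (Or.inr ⟨v, peel hu, rfl⟩)
  have him : ∀ (b : Bool) (S : Set (List Bool)), gf ((fun v => b :: v) '' S) ≤ ENNReal.ofReal (2 / 3) * gf S := by
    intro b S
    refine (PLW.gf_image S fun v => b :: v).trans ?_
    unfold gf
    rw [← ENNReal.tsum_mul_left]
    exact ENNReal.tsum_le_tsum fun v => wE_cons_le b v.1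
  refine (gf_mono hsub).trans ((gf_union_le _ _).trans ((add_le_add (gf_union_le _ _) le_rfl).trans ?_))
  rw [mul_add, ← add_assoc]
  refine add_le_add (add_le_add ?_ (him _ _)) (him _ _)
  unfold gf
  rw [tsum_singleton (f := wE)]
  unfold wE
  simp

lemma dir_cases : ∀ D ∈ dirs, D ≠ up → D ≠ -up → ∃ b : Bool, (turn b D = up ∨ turn b D = -up) ∧
    turn (!b) D ≠ up ∧ turn (!b) D ≠ -up := by decide

lemma turn_mem' : ∀ D ∈ dirs, ∀ b : Bool, turn b D ∈ dirs := by decide

lemma gf_Xn_le (M n : ℕ) : ∀ D ∈ dirs, gf (Xn D M n) ≤ 3 * (1 + Chi (M + 2)) := by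
  obtain ⟨A, hA⟩ : ∃ A, A = Chi (M + 2) := ⟨_, rfl⟩
  have hup : ∀ D, D = up ∨ D = -up → ∀ n, gf (Xn D M n) ≤ A := by
    intro D hD n
    refine (gf_mono fun u hu => hu.1).trans ?_
    rcases hD with h | h
    · rw [h, hA]
      exact XW_up M
    · rw [h, hA]
      exact XW_down M
  have hA3 : A ≤ 3 * (1 + A) := by
    calc A ≤ 1 + A := le_add_self
      _ = 1 * (1 + A) := (one_mul _).symm
      _ ≤ 3 * (1 + A) := mul_le_mul_left (by norm_num) _
  rw [← hA]
  induction n with
  | zero =>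
    intro D hD
    have h1 : Xn D M 0 ⊆ {[]} := by
      intro u hu
      exact List.length_eq_zero_iff.1 (Nat.le_zero.1 hu.2)
    refine (gf_mono h1).trans ?_
    have h2 : gf {([] : List Bool)} = 1 := by
      unfold gf
      rw [tsum_singleton (f := wE)]
      unfold wE
      simp
    rw [h2]
    calc (1 : ℝ≥0∞) ≤ 1 + A := le_self_add
      _ = 1 * (1 + A) := (one_mul _).symm
      _ ≤ 3 * (1 + A) := mul_le_mul_left (by norm_num) _
  | succ n ih =>
    intro D hD
    by_cases h1 : D = up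
    · exact (hup D (Or.inl h1) _).trans hA3
    by_cases h2 : D = -up
    · exact (hup D (Or.inr h2) _).trans hA3
    obtain ⟨b, h3, h4, h5⟩ := dir_cases D hD h1 h2
    have h6 : gf (Xn (turn true D) M n) + gf (Xn (turn false D) M n) ≤ A + 3 * (1 + A) := by
      cases b
      · rw [add_comm]
        exact add_le_add (hup _ h3 n) (ih _ (turn_mem' D hD _))
      · exact add_le_add (hup _ h3 n) (ih _ (turn_mem' D hD _))
    calc gf (Xn D M (n + 1)) ≤ 1 + ENNReal.ofReal (2 / 3) * (A + 3 * (1 + A)) :=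
          (gf_Xn_succ D M n).trans (add_le_add le_rfl (mul_le_mul_right h6 _))
      _ = 1 + (ENNReal.ofReal (2 / 3) * 3 + ENNReal.ofReal (2 / 3) * 4 * A) := by ring
      _ ≤ 1 + (2 + 3 * A) := by
          refine add_le_add le_rfl (add_le_add ?_ (mul_le_mul_left ?_ _))
          · rw [show (3 : ℝ≥0∞) = ENNReal.ofReal 3 by norm_num, ← ENNReal.ofReal_mul (by norm_num),
              show (2 : ℝ≥0∞) = ENNReal.ofReal 2 by norm_num]
            exact ENNReal.ofReal_le_ofReal (by norm_num)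
          · rw [show (4 : ℝ≥0∞) = ENNReal.ofReal 4 by norm_num, ← ENNReal.ofReal_mul (by norm_num),
              show (3 : ℝ≥0∞) = ENNReal.ofReal 3 by norm_num]
            exact ENNReal.ofReal_le_ofReal (by norm_num)
      _ = 3 * (1 + A) := by ring

lemma gf_XW_le (M : ℕ) : ∀ D ∈ dirs, gf (XW D M) ≤ 3 * (1 + Chi (M + 2)) := by
  intro D hD
  unfold gf
  rw [ENNReal.tsum_eq_iSup_sum]
  refine iSup_le fun s => ?_
  obtain ⟨n, hn⟩ : ∃ n, n = s.sup fun u : XW D M => u.1.length := ⟨_, rfl⟩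
  refine le_trans ?_ (gf_Xn_le M n D hD)
  classical
  have hs : ∀ u ∈ s, u.1 ∈ Xn D M n := fun u hu => ⟨u.2, hn ▸ Finset.le_sup (f := fun u : XW D M => u.1.length) hu⟩
  calc ∑ u ∈ s, wE u.1 = ∑' u : s, wE u.1.1 := (Finset.tsum_subtype s fun u => wE u.1).symm
    _ ≤ ∑' v : Xn D M n, wE v.1 := by
        have hinj : Function.Injective (fun u : s => (⟨u.1.1, hs u.1 u.2⟩ : Xn D M n)) := by
          intro u u' h
          exact Subtype.ext (Subtype.ext (congrArg (fun v => v.1) h))
        exact ENNReal.tsum_comp_le_tsum_of_injective hinj fun v : Xn D M n => wE v.1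

lemma one_le_Chi (M : ℕ) : 1 ≤ Chi M := by
  have h1 : ({[]} : Set (List Bool)) ⊆ {t | Saw Set.univ oo up t ∧ Ext M t} := by
    intro t ht
    rw [Set.mem_singleton_iff] at ht
    subst ht
    exact ⟨⟨fun _ _ _ => Set.mem_univ _, fun i k h1 h2 => by simp at h2; omega⟩, 0, fun i h1 h2 => by simp at h2; omega⟩
  have h2 : gf {([] : List Bool)} = 1 := by
    unfold gf
    rw [tsum_singleton (f := wE)]
    unfold wE
    simp
  rw [← h2]
  exact gf_mono h1

/-- all the first directions -/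
theorem chi_le (M : ℕ) : chi M ≤ 36 * Chi (M + 2) := by
  have h1 : ∀ D ∈ dirs, gf (XW D M) ≤ 6 * Chi (M + 2) := by
    intro D hD
    refine (gf_XW_le M D hD).trans ?_
    calc 3 * (1 + Chi (M + 2)) ≤ 3 * (Chi (M + 2) + Chi (M + 2)) :=
          mul_le_mul_right (add_le_add (one_le_Chi _) le_rfl) _
      _ = 6 * Chi (M + 2) := by ring
  unfold chi
  refine (Finset.sum_le_sum h1).trans ?_
  rw [Finset.sum_const, nsmul_eq_mul, ← mul_assoc]
  have : dirs.card = 6 := by decide
  rw [this]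
  refine mul_le_mul_left ?_ _
  norm_num

end BAR13

end HexObs
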