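import Pool.Agent.BAR13.Pairs
import Pool.Agent.BAR13.Vert
import Pool.Agent.EXP.CutFinal
import Pool.Agent.EXL.FinalPre
import Pool.Agent.EXL.GlFin
import Pool.Agent.Ex.P2Main

/-!
BAR, lower bound of the weight of all walks: the square of the weight of the half plane words of height at most m rows is
at most a constant times UU m times the weight of the walks of extent at most 2 m + 2 rows.
-/

set_option autoImplicit false

namespace HexObs

namespace BAR13

open Finset ENNReal BAR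

lemma sum_kap (m : ℕ) : ∑ r ∈ Icc 1 m, kap' r = ENNReal.ofReal (1 - KK' (m + 1)) := by
  have h1 : ∀ r, kap' r = ENNReal.ofReal (kk r) := by
    intro r
    have h2 : kap' r ≤ BT r := by
      rw [← gf_Brd]
      exact gf_mono fun t ht => ht.1
    exact (ENNReal.ofReal_toReal (ne_top_of_le_ne_top ENNReal.one_ne_top (h2.trans (PLW.BT_le_o r)))).symm
  have h2 : 1 - KK' (m + 1) = ∑ r ∈ Icc 1 m, kk r := by
    unfold KK'
    rw [_root_.sub_sub_cancel, Finset.range_eq_Ico, Finset.sum_eq_sum_Ico_succ_bot (by omega), kk_zero, zero_add]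
    rfl
  rw [h2, ENNReal.ofReal_sum_of_nonneg fun r _ => kk_nonneg r]
  exact Finset.sum_congr rfl fun r _ => h1 r

/-- the order of the tails of the irreducible bridges -/
theorem KK_UU : ∃ c : ℝ, 0 < c ∧ ∀ m : ℕ, 1 ≤ m → c ≤ KK' (m + 1) * UU m := by
  obtain ⟨C0, hC0, h0⟩ := Ex.P2.main (fun n => HexObs.bT_nonneg n) (fun _ _ h => Pool.Agent.EXL.bT_anti h)
    (fun _ => rfl) Pool.Agent.EXL.Glue.relE_bT
  obtain ⟨C, hC⟩ : ∃ C, C = max C0 1 := ⟨_, rfl⟩
  have hC1 : 1 ≤ C := by rw [hC]; exact le_max_right _ _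
  have hCC : C0 ≤ C := by rw [hC]; exact le_max_left _ _
  have h1 : ∀ T : ℕ, 1 ≤ T →
      (T : ℝ) ^ (-(1 / 4 : ℝ)) / C ≤ bT T ∧ bT T ≤ C * (T : ℝ) ^ (-(1 / 4 : ℝ)) := by
    intro T hT
    obtain ⟨h2, h3⟩ := h0 T hT
    constructor
    · exact (div_le_div_of_nonneg_left (by positivity) hC0 hCC).trans h2
    · exact h3.trans (mul_le_mul_of_nonneg_right hCC (by positivity))
  have hb : CutR.PB uu (3 / 4) C := PB_uu h1
  obtain ⟨c1, hc1, hK⟩ := CutR.KS_lower RS_uu (by norm_num) (by norm_num) hC1 hb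
  refine ⟨c1 * 2 ^ (-(3 / 4) : ℝ) / C, by positivity, fun m hm => ?_⟩
  have hm0 : (0 : ℝ) < m := by exact_mod_cast hm
  have h2 := CutR.US_lower RS_uu hC1 hb hm
  have h3 := hK (m + 1) (by omega)
  have h4 : (2 : ℝ) ^ (-(3 / 4) : ℝ) * (m : ℝ) ^ (-(3 / 4) : ℝ) ≤ ((m + 1 : ℕ) : ℝ) ^ (-(3 / 4) : ℝ) := by
    rw [← Real.mul_rpow (by norm_num) hm0.le]
    refine Real.rpow_le_rpow_of_nonpos (by positivity) ?_ (by norm_num)
    push_cast
    have : (1 : ℝ) ≤ m := by exact_mod_cast hm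
    linarith
  have h5 : c1 * (2 ^ (-(3 / 4) : ℝ) * (m : ℝ) ^ (-(3 / 4) : ℝ)) ≤ KK' (m + 1) :=
    (mul_le_mul_of_nonneg_left h4 hc1.le).trans h3
  have h6 : (m : ℝ) ^ (3 / 4 : ℝ) / C ≤ UU m := h2
  have h7 : (m : ℝ) ^ (-(3 / 4) : ℝ) * (m : ℝ) ^ (3 / 4 : ℝ) = 1 := by
    rw [← Real.rpow_add hm0]
    norm_num
  calc c1 * 2 ^ (-(3 / 4) : ℝ) / C = c1 * 2 ^ (-(3 / 4) : ℝ) / C * ((m : ℝ) ^ (-(3 / 4) : ℝ) * (m : ℝ) ^ (3 / 4 : ℝ)) := by
        rw [h7, mul_one]
    _ = (c1 * (2 ^ (-(3 / 4) : ℝ) * (m : ℝ) ^ (-(3 / 4) : ℝ))) * ((m : ℝ) ^ (3 / 4 : ℝ) / C) := by ring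
    _ ≤ KK' (m + 1) * UU m := mul_le_mul h5 h6 (by positivity) (KK_nonneg _)

/-- the lower bound -/
theorem low : ∃ C : ℝ, 1 ≤ C ∧ ∀ m : ℕ, HH m ^ 2 ≤ ENNReal.ofReal (C * UU m) * Chi (2 * m + 2) := by
  obtain ⟨c, hc, hK⟩ := KK_UU
  refine ⟨432 * (3 / c) + 1, by
    have : 0 < 3 / c := by positivity
    linarith, fun m => ?_⟩
  have hUm : 1 ≤ UU m := CutR.RS.one_le_US RS_uu m
  rcases Nat.eq_zero_or_pos m with h0 | hm
  · subst h0
    have h1 : HH 0 ≤ 1 := by
      have h2 : SSt 0 ⊆ {[]} := by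
        intro t ht
        by_contra hne
        have hl : 1 ≤ t.length := List.length_pos_iff.2 hne
        have h3 := (mem_SSt.1 ht).1 1 le_rfl hl
        have h4 := lev_ge_two h3.1
        have h5 := h3.2
        simp at h5
        omega
      refine (gf_mono h2).trans ?_
      unfold gf
      rw [tsum_singleton (f := wE)]
      unfold wE
      simp
    calc HH 0 ^ 2 ≤ 1 ^ 2 := pow_le_pow_left' h1 2
      _ = 1 * 1 := by norm_num
      _ ≤ _ := by
          refine mul_le_mul' ?_ (one_le_Chi _)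
          rw [← ENNReal.ofReal_one]
          refine ENNReal.ofReal_le_ofReal ?_
          have : 0 < 3 / c := by positivity
          nlinarith
  · obtain ⟨K, hKe⟩ : ∃ K, K = KK' (m + 1) := ⟨_, rfl⟩
    have hKU := hK m hm
    rw [← hKe] at hKU
    have hKpos : 0 < K := by
      by_contra hcon
      have : K * UU m ≤ 0 := mul_nonpos_of_nonpos_of_nonneg (not_lt.1 hcon) (by linarith)
      linarith
    have hK1 : K ≤ 1 := hKe ▸ KK_le_one _
    obtain ⟨k, hk⟩ : ∃ k : ℕ, k = ⌈2 / K⌉₊ := ⟨_, rfl⟩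
    have hk1 : 2 / K ≤ k := hk ▸ Nat.le_ceil _
    have hk2 : (k : ℝ) ≤ 3 / K := by
      have h1 : (k : ℝ) < 2 / K + 1 := hk ▸ Nat.ceil_lt_add_one (by positivity)
      have h2 : 1 ≤ 1 / K := by rw [le_div_iff₀ hKpos]; linarith
      have h3 : 3 / K = 2 / K + 1 / K := by ring
      linarith
    have hpow : 4 * (1 - K) ^ k ≤ 1 := by
      have h1 : (1 - K) ^ k ≤ Real.exp (-K) ^ k :=
        pow_le_pow_left₀ (by linarith) (by have := Real.add_one_le_exp (-K); linarith) k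
      have h2 : Real.exp (-K) ^ k ≤ Real.exp (-2) := by
        rw [← Real.exp_nat_mul]
        refine Real.exp_le_exp.2 ?_
        rw [div_le_iff₀ hKpos] at hk1
        linarith
      have h3 : Real.exp (-2) ≤ 1 / 4 := by
        have h4 : (2 : ℝ) ≤ Real.exp 1 := by have := Real.add_one_le_exp (1 : ℝ); linarith
        have h5 : Real.exp 2 = Real.exp 1 * Real.exp 1 := by rw [← Real.exp_add]; norm_num
        rw [Real.exp_neg, inv_le_comm₀ (Real.exp_pos _) (by norm_num), h5]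
        nlinarith
      linarith
    have hAC : 4 * gf (AC m k) ≤ gf (SSt m) := by
      calc 4 * gf (AC m k) ≤ 4 * ((∑ r ∈ Icc 1 m, kap' r) ^ k * gf (SSt m)) := mul_le_mul_right (gf_AC_le m k) _
        _ = ENNReal.ofReal (4 * (1 - K) ^ k) * gf (SSt m) := by
            rw [sum_kap, ← hKe, ← ENNReal.ofReal_pow (by linarith), ENNReal.ofReal_mul (by norm_num), ← mul_assoc]
            norm_num
        _ ≤ 1 * gf (SSt m) := by
            refine mul_le_mul_left ?_ _
            rw [← ENNReal.ofReal_one]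
            exact ENNReal.ofReal_le_ofReal hpow
        _ = gf (SSt m) := one_mul _
    have h1 := sq_le hm hAC
    have h2 := chi_le (2 * m)
    calc HH m ^ 2 ≤ ((12 * k : ℕ) : ℝ≥0∞) * chi (2 * m) := h1
      _ ≤ ((12 * k : ℕ) : ℝ≥0∞) * (36 * Chi (2 * m + 2)) := mul_le_mul_right h2 _
      _ = ENNReal.ofReal (432 * k) * Chi (2 * m + 2) := by
          rw [ENNReal.ofReal_mul (by norm_num), ENNReal.ofReal_natCast]
          push_cast
          have : ENNReal.ofReal 432 = 432 := by norm_num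
          rw [this]
          ring
      _ ≤ ENNReal.ofReal ((432 * (3 / c) + 1) * UU m) * Chi (2 * m + 2) := by
          refine mul_le_mul_left (ENNReal.ofReal_le_ofReal ?_) _
          have h3 : 3 / K ≤ 3 / c * UU m := by
            rw [div_mul_eq_mul_div, div_le_div_iff₀ hKpos hc]
            nlinarith
          nlinarith

end BAR13

end HexObs
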