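import Pool.Agent.BAR13.Join
import Pool.Agent.PLW.Strip

/-!
BAR: the square of the weight of the half plane walks by the weight of all walks.
-/

set_option autoImplicit false

namespace HexObs

namespace BAR13

open Finset ENNReal

/-- the pairs of half plane walks with few cuts -/
def GP (m k : ℕ) : Set (List Bool × List Bool) := {p | p.1 ∈ SSt m ∧ p.2 ∈ SSt m ∧ (cuts p.1).card < k ∧
  (cuts p.2).card < k}

lemma jn_length (w1 w2 : List Bool) : (jn w1 w2).length = w1.dropLast.length + w2.length := by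
  unfold jn
  rw [List.length_append, rev_length]

lemma jn_inj {w1 w2 w1' w2' : List Bool} (h : jn w1 w2 = jn w1' w2') (hl : w1.dropLast.length = w1'.dropLast.length)
    (hg : w1.getLast? = w1'.getLast?) : w1 = w1' ∧ w2 = w2' := by
  unfold jn at h
  obtain ⟨h1, h2⟩ := List.append_inj h (by rw [rev_length, rev_length, hl])
  have h3 : w1.dropLast = w1'.dropLast := by rw [← rev_rev w1.dropLast, h1, rev_rev]
  refine ⟨?_, h2⟩
  cases hx : w1.getLast? with
  | none =>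
    rw [hx] at hg
    rw [List.getLast?_eq_none_iff.1 hx, List.getLast?_eq_none_iff.1 hg.symm]
  | some b =>
    rw [hx] at hg
    rw [← List.dropLast_append_getLast? b hx, ← List.dropLast_append_getLast? b hg.symm, h3]

theorem GP_le {m k : ℕ} (hm : 1 ≤ m) : ∑' p : GP m k, wE p.1.1 * wE p.1.2 ≤ ((6 * k : ℕ) : ℝ≥0∞) * chi (2 * m) := by
  classical
  let J : Type := Σ D : {D : Pt // D ∈ dirs}, Σ u : {u : List Bool // u ∈ XW D.1 (2 * m) ∧ (mks D.1 u).card ≤ 2 * k},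
    ({j : ℕ // j ∈ mks D.1 u.1} × Option Bool)
  have hsp : ∀ p : GP m k, ∃ D ∈ dirs, jn p.1.1 p.1.2 ∈ XW D (2 * m) ∧ (mks D (jn p.1.1 p.1.2)).card ≤ 2 * k ∧
      p.1.1.dropLast.length ∈ mks D (jn p.1.1 p.1.2) := by
    rintro ⟨⟨w1, w2⟩, h1, h2, h3, h4⟩
    obtain ⟨D, hD, e1, e2, e3⟩ := jn_spec hm h1 h2
    refine ⟨D, hD, e1, ?_, mem_mks.2 e2⟩
    show (mks D (jn w1 w2)).card ≤ 2 * k
    have h3' : (cuts w1).card < k := h3
    have h4' : (cuts w2).card < k := h4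
    have e3' : (mks D (jn w1 w2)).card ≤ (cuts w1).card + (cuts w2).card + 1 := e3
    omega
  choose D hD e1 e2 e3 using hsp
  let ψ : GP m k → J := fun p => ⟨⟨D p, hD p⟩, ⟨jn p.1.1 p.1.2, e1 p, e2 p⟩, ⟨p.1.1.dropLast.length, e3 p⟩,
    p.1.1.getLast?⟩
  let pr : J → Pt × List Bool × ℕ × Option Bool := fun x => (x.1.1, x.2.1.1, x.2.2.1.1, x.2.2.2)
  have hψ : Function.Injective ψ := by
    intro p p' h
    have h0 := congrArg pr h
    have g1 : jn p.1.1 p.1.2 = jn p'.1.1 p'.1.2 := congrArg (fun x => x.2.1) h0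
    have g2 : p.1.1.dropLast.length = p'.1.1.dropLast.length := congrArg (fun x => x.2.2.1) h0
    have g3 : p.1.1.getLast? = p'.1.1.getLast? := congrArg (fun x => x.2.2.2) h0
    obtain ⟨g4, g5⟩ := jn_inj g1 g2 g3
    exact Subtype.ext (Prod.ext g4 g5)
  calc ∑' p : GP m k, wE p.1.1 * wE p.1.2 ≤ ∑' p : GP m k, (fun x : J => wE x.2.1.1) (ψ p) := by
        refine ENNReal.tsum_le_tsum fun p => ?_
        show wE p.1.1 * wE p.1.2 ≤ wE (jn p.1.1 p.1.2)
        rw [← wE_append]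
        unfold wE
        refine ENNReal.ofReal_le_ofReal (pow_le_pow_of_le_one xc_pos.le PLW.xc_le_one ?_)
        rw [jn_length, List.length_append, List.length_dropLast]
        omega
    _ ≤ ∑' x : J, wE x.2.1.1 := ENNReal.tsum_comp_le_tsum_of_injective hψ _
    _ = ∑' (D : {D : Pt // D ∈ dirs}) (u : {u : List Bool // u ∈ XW D.1 (2 * m) ∧ (mks D.1 u).card ≤ 2 * k}),
        ((3 * (mks D.1 u.1).card : ℕ) : ℝ≥0∞) * wE u.1 := by
        rw [ENNReal.tsum_sigma']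
        refine tsum_congr fun D => ?_
        rw [ENNReal.tsum_sigma']
        refine tsum_congr fun u => ?_
        rw [tsum_fintype]
        show ∑ _b : {j : ℕ // j ∈ mks D.1 u.1} × Option Bool, wE u.1 = _
        rw [Finset.sum_const, Finset.card_univ, Fintype.card_prod, Fintype.card_coe, nsmul_eq_mul]
        congr 2
        rw [Fintype.card_option, Fintype.card_bool]
        ring
    _ ≤ ∑' (D : {D : Pt // D ∈ dirs}) (u : {u : List Bool // u ∈ XW D.1 (2 * m) ∧ (mks D.1 u).card ≤ 2 * k}),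
        ((6 * k : ℕ) : ℝ≥0∞) * wE u.1 := by
        refine ENNReal.tsum_le_tsum fun D => ENNReal.tsum_le_tsum fun u => mul_le_mul_left ?_ _
        have := u.2.2
        exact_mod_cast (by omega : 3 * (mks D.1 u.1).card ≤ 6 * k)
    _ ≤ ∑' (D : {D : Pt // D ∈ dirs}), ((6 * k : ℕ) : ℝ≥0∞) * gf (XW D.1 (2 * m)) := by
        refine ENNReal.tsum_le_tsum fun D => ?_
        rw [ENNReal.tsum_mul_left]
        refine mul_le_mul_right ?_ _
        exact ENNReal.tsum_mono_subtype wE fun u hu => hu.1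
    _ = ((6 * k : ℕ) : ℝ≥0∞) * chi (2 * m) := by
        rw [ENNReal.tsum_mul_left]
        congr 1
        unfold chi
        exact Finset.tsum_subtype dirs fun D => gf (XW D (2 * m))

/-- the square of the weight of the half plane walks -/
theorem sq_le {m k : ℕ} (hm : 1 ≤ m) (hk : 4 * gf (AC m k) ≤ gf (SSt m)) :
    gf (SSt m) ^ 2 ≤ ((12 * k : ℕ) : ℝ≥0∞) * chi (2 * m) := by
  classical
  obtain ⟨H, hH⟩ : ∃ H, H = gf (SSt m) := ⟨_, rfl⟩
  have hfin : H ≠ ∞ := hH ▸ PLW.gf_SSt_fin m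
  have hprod : ∀ S T : Set (List Bool), ∑' p : ↥(S ×ˢ T), wE p.1.1 * wE p.1.2 = gf S * gf T := by
    intro S T
    calc ∑' p : ↥(S ×ˢ T), wE p.1.1 * wE p.1.2 = ∑' p : ↥S × ↥T, wE p.1.1 * wE p.2.1 :=
          (Equiv.Set.prod S T).tsum_eq (fun p : ↥S × ↥T => wE p.1.1 * wE p.2.1)
      _ = ∑' a : ↥S, ∑' c : ↥T, wE a.1 * wE c.1 := ENNReal.tsum_prod (f := fun (a : ↥S) (c : ↥T) => wE a.1 * wE c.1)
      _ = gf S * gf T := by
          simp only [ENNReal.tsum_mul_left]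
          rw [ENNReal.tsum_mul_right]
          rfl
  have hsub : SSt m ×ˢ SSt m ⊆ (GP m k ∪ AC m k ×ˢ SSt m) ∪ SSt m ×ˢ AC m k := by
    rintro ⟨w1, w2⟩ ⟨h1, h2⟩
    simp only at h1 h2
    by_cases c1 : (cuts w1).card < k
    · by_cases c2 : (cuts w2).card < k
      · exact Or.inl (Or.inl ⟨h1, h2, c1, c2⟩)
      · exact Or.inr ⟨h1, h2, Nat.not_lt.1 c2⟩
    · exact Or.inl (Or.inr ⟨⟨h1, Nat.not_lt.1 c1⟩, h2⟩)
  have h1 : H ^ 2 ≤ ((6 * k : ℕ) : ℝ≥0∞) * chi (2 * m) + gf (AC m k) * H + H * gf (AC m k) := by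
    calc H ^ 2 = ∑' p : ↥(SSt m ×ˢ SSt m), wE p.1.1 * wE p.1.2 := by rw [hprod, hH, sq]
      _ ≤ ∑' p : ↥((GP m k ∪ AC m k ×ˢ SSt m) ∪ SSt m ×ˢ AC m k), wE p.1.1 * wE p.1.2 :=
          ENNReal.tsum_mono_subtype (fun p : List Bool × List Bool => wE p.1 * wE p.2) hsub
      _ ≤ (∑' p : GP m k, wE p.1.1 * wE p.1.2 + ∑' p : ↥(AC m k ×ˢ SSt m), wE p.1.1 * wE p.1.2) +
          ∑' p : ↥(SSt m ×ˢ AC m k), wE p.1.1 * wE p.1.2 :=
          (ENNReal.tsum_union_le (fun p : List Bool × List Bool => wE p.1 * wE p.2) _ _).trans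
            (add_le_add (ENNReal.tsum_union_le (fun p : List Bool × List Bool => wE p.1 * wE p.2) _ _) le_rfl)
      _ ≤ _ := by
          rw [hprod, hprod, ← hH]
          exact add_le_add (add_le_add (GP_le hm) le_rfl) le_rfl
  rw [← hH] at hk ⊢
  have h2 : gf (AC m k) * H + H * gf (AC m k) ≤ H ^ 2 / 2 := by
    have h3 : gf (AC m k) ≤ H / 4 := by
      rw [ENNReal.le_div_iff_mul_le (Or.inl (by norm_num)) (Or.inl (by norm_num)), mul_comm]
      exact hk
    calc gf (AC m k) * H + H * gf (AC m k) ≤ H / 4 * H + H * (H / 4) :=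
          add_le_add (mul_le_mul_left h3 _) (mul_le_mul_right h3 _)
      _ = H ^ 2 / 2 := by
          rw [mul_comm H (H / 4), ← two_mul, ENNReal.div_eq_inv_mul, ENNReal.div_eq_inv_mul]
          have e : (2 : ℝ≥0∞) * 4⁻¹ = 2⁻¹ := by
            rw [show (4 : ℝ≥0∞) = 2 * 2 by norm_num, ENNReal.mul_inv (Or.inl (by norm_num)) (Or.inl (by norm_num)),
              ← mul_assoc, ENNReal.mul_inv_cancel (by norm_num) (by norm_num), one_mul]
          calc 2 * (4⁻¹ * H * H) = (2 * 4⁻¹) * H ^ 2 := by ring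
            _ = 2⁻¹ * H ^ 2 := by rw [e]
  have h4 : H ^ 2 ≤ ((6 * k : ℕ) : ℝ≥0∞) * chi (2 * m) + H ^ 2 / 2 := by
    refine h1.trans ?_
    rw [add_assoc]
    exact add_le_add le_rfl h2
  have h5 : H ^ 2 / 2 ≤ ((6 * k : ℕ) : ℝ≥0∞) * chi (2 * m) := by
    have h6 : H ^ 2 / 2 ≠ ∞ := ENNReal.div_ne_top (ENNReal.pow_ne_top hfin) (by norm_num)
    have h7 : H ^ 2 = H ^ 2 / 2 + H ^ 2 / 2 := (ENNReal.add_halves _).symm
    rw [h7] at h4
    nth_rewrite 1 [← h7] at h4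
    exact (ENNReal.add_le_add_iff_right h6).1 (h7 ▸ h4)
  calc H ^ 2 = 2 * (H ^ 2 / 2) := by rw [ENNReal.mul_div_cancel (by norm_num) (by norm_num)]
    _ ≤ 2 * (((6 * k : ℕ) : ℝ≥0∞) * chi (2 * m)) := mul_le_mul_right h5 _
    _ = ((12 * k : ℕ) : ℝ≥0∞) * chi (2 * m) := by
        push_cast
        ring

end BAR13

end HexObs
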